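import Pool.Agent.Lib.lead.CXGraphRed
import Pool.Agent.Lib.lead.CXRat

namespace Pool.Agent.Results.MP_10a207_lc.Hard
open Pool.Agent.Lib.CX Finset

section defs
variable {W : Type} (G : SimpleGraph W)

/-- `(u, v, t)` is the point of the edge `uv` at distance `t` from `u` -/
def IsPt (p : W × W × ℝ) : Prop := G.Adj p.1 p.2.1 ∧ 0 ≤ p.2.2 ∧ p.2.2 ≤ 1

/-- the distance of the two points in the continuous graph is at least `δ` -/
def Far (δ : ℝ) (p q : W × W × ℝ) : Prop :=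
  (∀ x ∈ [(p.1, p.2.2), (p.2.1, 1 - p.2.2)], ∀ y ∈ [(q.1, q.2.2), (q.2.1, 1 - q.2.2)],
    ∀ w : G.Walk x.1 y.1, δ ≤ x.2 + w.length + y.2) ∧
  (p.1 = q.1 → p.2.1 = q.2.1 → δ ≤ |p.2.2 - q.2.2|) ∧ (p.1 = q.2.1 → p.2.1 = q.1 → δ ≤ |p.2.2 - (1 - q.2.2)|)

def Indep (r : ℝ) (I : List (W × W × ℝ)) : Prop := (∀ p ∈ I, IsPt G p) ∧ I.Pairwise (Far G (2 * r))
end defs

/-- polynomial-time algorithm with guarantee `c` for `r`-independent sets, on graphs without isolated vertices -/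
def DispApprox (r c : ℝ) : Prop := ∃ f : Gr → List (ℕ × ℕ × ℚ), PT f ∧ ∀ a : Gr, (∀ v, ∃ w, a.G.Adj v w) →
  ∃ I, Indep a.G r I ∧ I.map (fun p => (p.1.1, p.2.1.1, p.2.2)) = (f a).map (fun p => (p.1, p.2.1, (p.2.2 : ℝ))) ∧
    ∀ J, Indep a.G r J → c * J.length ≤ I.length

/-- polynomial-time algorithm with guarantee `c` for maximum independent set -/
def ISApprox (c : ℝ) : Prop := ∃ g : Gr → List ℕ, PT g ∧ ∀ a : Gr,
  a.G.IsIndepSet {v | v.1 ∈ g a} ∧ ∀ T : Finset (Fin a.n), a.G.IsIndepSet T →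
    c * T.card ≤ (univ.filter fun v : Fin a.n => v.1 ∈ g a).card

abbrev Nm := ℕ × ℕ × ℕ
def ad (a : Gr) (u v : ℕ) : Prop := u = v ∨ (u, v) ∈ a.2 ∨ (v, u) ∈ a.2
instance (a : Gr) (u v : ℕ) : Decidable (ad a u v) := by unfold ad; infer_instance
def vs (a : Gr) : List Nm := (List.range a.1.length).map (fun v => (0, v, 0)) ++
  ((List.range a.1.length ×ˢ List.range a.1.length).filter fun p => decide (ad a p.1 p.2)).map fun p => (1, p.1, p.2)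
def Rl (x y : Nm) : Prop := (x.1 = 1 ∧ y.1 = 1) ∨ (x.1 = 0 ∧ y.1 = 1 ∧ (x.2.1 = y.2.1 ∨ x.2.1 = y.2.2))
instance (a b : Nm) : Decidable (Rl a b) := by unfold Rl; infer_instance
def es (a : Gr) : List (Nm × Nm) := (vs a ×ˢ vs a).filter fun p => decide (Rl p.1 p.2)
def inst (a : Gr) : Gr := mkGr (vs a) (es a)
def ph (x y : Nm) : ℕ := if x.1 = 0 then x.2.1 else y.2.1
def outp (p : Gr × List (ℕ × ℕ × ℚ)) : List ℕ :=
  p.2.map fun q => ph ((vs p.1).dedup.getD q.1 (0, 0, 0)) ((vs p.1).dedup.getD q.2.1 (0, 0, 0))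

theorem mem_vs (a : Gr) (x : Nm) : x ∈ vs a ↔ (x.1 = 0 ∧ x.2.1 < a.n ∧ x.2.2 = 0) ∨
    (x.1 = 1 ∧ x.2.1 < a.n ∧ x.2.2 < a.n ∧ ad a x.2.1 x.2.2) := by
  obtain ⟨t, j, x⟩ := x
  simp only [vs, List.mem_append, List.mem_range, List.mem_map, Prod.mk.injEq, List.mem_filter, List.mem_product,
    Prod.exists, decide_eq_true_eq, Gr.n]
  constructor
  · rintro (⟨_, h, rfl, rfl, rfl⟩ | ⟨_, _, h, rfl, rfl, rfl⟩)
    exacts [Or.inl ⟨rfl, h, rfl⟩, Or.inr ⟨rfl, h.1.1, h.1.2, h.2⟩]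
  · rintro (⟨rfl, h, rfl⟩ | ⟨rfl, h1, h2, h3⟩)
    exacts [Or.inl ⟨_, h, rfl, rfl, rfl⟩, Or.inr ⟨_, _, ⟨⟨h1, h2⟩, h3⟩, rfl, rfl, rfl⟩]

section red
variable {W : Type} {G : SimpleGraph W} {a : Gr} {ν : W → Nm}

theorem lemA (hi : Function.Injective ν) (hs : ∀ x, x ∈ vs a ↔ ∃ w, ν w = x)
    (ha : ∀ u v, G.Adj u v ↔ ν u ≠ ν v ∧ (Rl (ν u) (ν v) ∨ Rl (ν v) (ν u))) {p q : W × W × ℝ} (hp : IsPt G p)
    (hq : IsPt G q) (h : Far G (2 * (3 / 2)) p q) : ¬ad a (ph (ν p.1) (ν p.2.1)) (ph (ν q.1) (ν q.2.1)) := by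
  have mv := fun w => (mem_vs a (ν w)).1 ((hs _).2 ⟨w, rfl⟩)
  have w1 : ∀ u v, (ν u).1 = 1 → (ν v).1 = 1 → ∃ w : G.Walk u v, (w.length : ℝ) ≤ 1 := fun u v h1 h2 => by
    by_cases e : u = v
    · subst e; exact ⟨.nil, by simp⟩
    · exact ⟨.cons ((ha u v).2 ⟨hi.ne e, Or.inl (Or.inl ⟨h1, h2⟩)⟩) .nil, by simp⟩
  have w2 : ∀ u v, (ν u).1 = 0 → (ν v).1 = 0 → ad a (ν u).2.1 (ν v).2.1 → ∃ w : G.Walk u v, (w.length : ℝ) ≤ 2 := by
    intro u v h1 h2 h3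
    obtain ⟨z, hz⟩ := (hs (1, (ν u).2.1, (ν v).2.1)).1 (by
      have := mv u; have := mv v; rw [mem_vs]; grind)
    exact ⟨.cons ((ha u z).2 ⟨fun e => by have := congrArg Prod.fst (e.trans hz); simp [h1] at this, Or.inl (by simp [Rl, hz, h1])⟩)
      (.cons ((ha z v).2 ⟨fun e => by have := congrArg Prod.fst (e.symm.trans hz); simp [h2] at this, Or.inr (by simp [Rl, hz, h2])⟩) .nil), by norm_num⟩
  obtain ⟨u, v, s⟩ := p
  obtain ⟨u', v', t⟩ := q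
  obtain ⟨p1, p2, p3⟩ := hp
  obtain ⟨q1, q2, q3⟩ := hq
  have h := h.1
  simp only [List.forall_mem_cons, List.not_mem_nil, IsEmpty.forall_iff, implies_true, and_true] at h p1 p2 p3 q1 q2 q3 ⊢
  obtain ⟨⟨h1, h2⟩, h3, h4⟩ := h
  have c : ∀ u v, G.Adj u v → ((ν u).1 = 1 ∧ (ν v).1 = 1) ∨ ((ν u).1 = 0 ∧ (ν v).1 = 1) ∨ ((ν u).1 = 1 ∧ (ν v).1 = 0) :=
    fun u v h => by rw [ha] at h; simp only [Rl] at h; tauto
  intro hd
  rcases c _ _ p1 with ⟨a1, a2⟩ | ⟨a1, a2⟩ | ⟨a1, a2⟩ <;> rcases c _ _ q1 with ⟨b1, b2⟩ | ⟨b1, b2⟩ | ⟨b1, b2⟩ <;>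
    simp only [ph, a1, b1, if_true, one_ne_zero, if_false] at hd
  · obtain ⟨w, e⟩ := w1 _ _ a1 b1; obtain ⟨w', e'⟩ := w1 _ _ a2 b1; linarith [h1 w, h3 w']
  · obtain ⟨w, e⟩ := w1 _ _ a1 b2; obtain ⟨w', e'⟩ := w1 _ _ a2 b2; linarith [h2 w, h4 w']
  · obtain ⟨w, e⟩ := w1 _ _ a1 b1; obtain ⟨w', e'⟩ := w1 _ _ a2 b1; linarith [h1 w, h3 w']
  · obtain ⟨w, e⟩ := w1 _ _ a2 b1; obtain ⟨w', e'⟩ := w1 _ _ a2 b2; linarith [h3 w, h4 w']
  · obtain ⟨w, e⟩ := w1 _ _ a2 b2; obtain ⟨w', e'⟩ := w2 _ _ a1 b1 hd; linarith [h4 w, h1 w']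
  · obtain ⟨w, e⟩ := w1 _ _ a2 b1; obtain ⟨w', e'⟩ := w2 _ _ a1 b2 hd; linarith [h3 w, h2 w']
  · obtain ⟨w, e⟩ := w1 _ _ a1 b1; obtain ⟨w', e'⟩ := w1 _ _ a1 b2; linarith [h1 w, h2 w']
  · obtain ⟨w, e⟩ := w1 _ _ a1 b2; obtain ⟨w', e'⟩ := w2 _ _ a2 b1 hd; linarith [h2 w, h3 w']
  · obtain ⟨w, e⟩ := w1 _ _ a1 b1; obtain ⟨w', e'⟩ := w2 _ _ a2 b2 hd; linarith [h1 w, h4 w']

theorem lemB (hs : ∀ x, x ∈ vs a ↔ ∃ w, ν w = x)
    (ha : ∀ u v, G.Adj u v ↔ ν u ≠ ν v ∧ (Rl (ν u) (ν v) ∨ Rl (ν v) (ν u))) {u u' v v' : W} {x y : ℕ} (h : ¬ad a x y)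
    (e1 : ν u = (0, x, 0)) (e2 : ν u' = (1, x, x)) (e3 : ν v = (0, y, 0)) (e4 : ν v' = (1, y, y)) :
    Far G (2 * (3 / 2)) (u, u', 0) (v, v', 0) := by
  have mv := fun w => (mem_vs a (ν w)).1 ((hs _).2 ⟨w, rfl⟩)
  have hxy : x ≠ y := fun e => h (Or.inl e)
  have n : ∀ {p q : W}, ν p ≠ ν q → ∀ w : G.Walk p q, 1 ≤ w.length := fun h w => by
    cases w; exacts [(h rfl).elim, by simp]
  have n2 : ∀ {p q : W}, ν p ≠ ν q → ¬G.Adj p q → ∀ w : G.Walk p q, 2 ≤ w.length := fun h h' w => by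
    rcases w with _ | ⟨k, _ | ⟨k', w⟩⟩; exacts [(h rfl).elim, (h' k).elim, by simp]
  refine ⟨?_, fun e => by simp [show u = v from e, e3, hxy.symm] at e1, fun e => by simp [show u = v' from e, e4] at e1⟩
  simp only [List.forall_mem_cons, List.not_mem_nil, IsEmpty.forall_iff, implies_true, and_true]
  refine ⟨⟨fun w => ?_, fun w => ?_⟩, fun w => ?_, fun w => ?_⟩
  · have : 3 ≤ w.length := by
      rcases w with _ | ⟨k, _ | @⟨_, z, _, k', _ | ⟨k'', w⟩⟩⟩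
      · simp [e3, hxy.symm] at e1
      · simp [ha, e1, e3, Rl] at k
      · exfalso
        rename_i z
        have := mv z
        simp only [ha, e1, e3, Rl, ad] at k k' h this
        clear * - k k' h this
        grind
      · simp
    have : (3 : ℝ) ≤ w.length := by exact_mod_cast this
    linarith
  · have : (2 : ℝ) ≤ w.length := by exact_mod_cast n2 (by simp [e1, e4]) (by simp [ha, e1, e4, Rl, hxy]) w
    linarith
  · have : (2 : ℝ) ≤ w.length := by exact_mod_cast n2 (by simp [e2, e3]) (by simp [ha, e2, e3, Rl, hxy.symm]) w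
    linarith
  · have : (1 : ℝ) ≤ w.length := by exact_mod_cast n (by simp [e2, e4, hxy]) w
    linarith
end red

theorem red (c : ℝ) : DispApprox (3 / 2) c → ISApprox c := by
  rintro ⟨f, hf, h⟩
  have pv : PT vs := by unfold vs ad; fun_prop
  have pi : PT inst := by unfold inst es Rl; fun_prop
  have po : PT outp := by unfold outp ph; fun_prop
  refine ⟨fun a => outp (a, f (inst a)), po.comp (by fun_prop), fun a => ?_⟩
  let ν : Fin (inst a).n → Nm := fun i => (mkGrEquiv (vs a) (es a) i).1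
  have hi : Function.Injective ν := fun x y h => (mkGrEquiv (vs a) (es a)).injective (Subtype.ext h)
  have hs : ∀ x, x ∈ vs a ↔ ∃ w, ν w = x := fun x =>
    ⟨fun h => ⟨(mkGrEquiv (vs a) (es a)).symm ⟨x, h⟩, by simp [ν]⟩, fun ⟨w, e⟩ => e ▸ (mkGrEquiv (vs a) (es a) w).2⟩
  have ha : ∀ u v, (inst a).G.Adj u v ↔ ν u ≠ ν v ∧ (Rl (ν u) (ν v) ∨ Rl (ν v) (ν u)) := fun u v => by
    have k : ∀ u v, (inst a).arc u v ↔ Rl (ν u) (ν v) := fun u v => (mkGr_arc _ _ u v).trans (by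
      simp only [es, List.mem_filter, List.mem_product, decide_eq_true_eq]
      exact and_iff_right ⟨(hs _).2 ⟨u, rfl⟩, (hs _).2 ⟨v, rfl⟩⟩)
    rw [Gr.adj_iff, hi.ne_iff, ← k, ← k, Fin.val_ne_iff]; rfl
  have mv := fun w => (mem_vs a (ν w)).1 ((hs _).2 ⟨w, rfl⟩)
  have hc : ∀ v, (vs a).dedup.getD v.1 (0, 0, 0) = ν v := fun v =>
    List.getD_eq_getElem _ _ (mkGr_n (vs a) (es a) ▸ v.2)
  obtain ⟨I, h1, h2, h3⟩ := h (inst a) fun v => by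
    rcases mv v with k | k
    · obtain ⟨z, hz⟩ := (hs (1, (ν v).2.1, (ν v).2.1)).1 (by simp [mem_vs, k, ad])
      exact ⟨z, (ha _ _).2 ⟨fun e => by have := congrArg Prod.fst (e.trans hz); simp [k] at this, Or.inl (by simp [Rl, hz, k])⟩⟩
    · obtain ⟨z, hz⟩ := (hs (0, (ν v).2.1, 0)).1 (by simp [mem_vs, k])
      exact ⟨z, (ha _ _).2 ⟨fun e => by have := congrArg Prod.fst (e.trans hz); simp [k] at this, Or.inr (by simp [Rl, hz, k])⟩⟩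
  have ho : outp (a, f (inst a)) = I.map fun p => ph (ν p.1) (ν p.2.1) := by
    have := congrArg (List.map fun q : ℕ × ℕ × ℝ =>
      ph ((vs a).dedup.getD q.1 (0, 0, 0)) ((vs a).dedup.getD q.2.1 (0, 0, 0))) h2
    simp only [List.map_map, Function.comp_def, hc] at this
    exact this.symm
  have pw : (I.map fun p => ph (ν p.1) (ν p.2.1)).Pairwise fun x y => ¬ad a x y :=
    List.pairwise_map.2 (h1.2.imp_of_mem fun hp hq k => lemA hi hs ha (h1.1 _ hp) (h1.1 _ hq) k)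
  simp only [ho]
  refine ⟨fun u hu v hv ne k => ?_, fun T hT => ?_⟩
  · have : Std.Symm fun x y => ¬ad a x y := ⟨fun x y h h' => h (by unfold ad at *; tauto)⟩
    exact pw.forall hu hv (Fin.val_ne_iff.2 ne) (Or.inr ((Gr.adj_iff _ _ _).1 k).2)
  have : ∀ v : Fin a.n, ∃ p : Fin (inst a).n × Fin (inst a).n, ν p.1 = (0, v.1, 0) ∧ ν p.2 = (1, v.1, v.1) := fun v => by
    obtain ⟨x, hx⟩ := (hs (0, v.1, 0)).1 (by simp [mem_vs])
    obtain ⟨y, hy⟩ := (hs (1, v.1, v.1)).1 (by simp [mem_vs, ad])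
    exact ⟨(x, y), hx, hy⟩
  choose m m1 m2 using this
  have := h3 (T.toList.map fun v => ((m v).1, (m v).2, 0)) ⟨fun p hp => by
      obtain ⟨v, _, rfl⟩ := List.mem_map.1 hp
      exact ⟨by simp [ha, m1, m2, Rl], le_rfl, zero_le_one⟩,
    List.pairwise_map.2 (T.nodup_toList.imp_of_mem fun {u v} hu hv ne => lemB hs ha (fun k => k.elim
      (fun e => ne (Fin.ext e)) fun k => hT (mem_toList.1 hu) (mem_toList.1 hv) ne
        ((Gr.adj_iff _ _ _).2 ⟨Fin.val_ne_iff.2 ne, k⟩)) (m1 u) (m2 u) (m1 v) (m2 v))⟩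
  rw [List.length_map, length_toList] at this
  refine this.trans ?_
  rw [← List.length_map (fun p => ph (ν p.1) (ν p.2.1)), ← List.toFinset_card_of_nodup (pw.imp fun h e => h (Or.inl e))]
  refine Nat.cast_le.2 (card_le_card_of_surjOn Fin.val fun x hx => ?_)
  have hx := List.mem_toFinset.1 hx
  obtain ⟨p, _, e⟩ := List.mem_map.1 hx
  refine ⟨⟨x, ?_⟩, by simpa using hx, rfl⟩
  have k1 := mv p.1
  have k2 := mv p.2.1
  rw [← e, ph]; split_ifs <;> omega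

theorem result : (∀ c : ℝ, DispApprox (3 / 2) c → ISApprox c) ∧
    ((¬∃ c > 0, ISApprox c) → ∃ r : ℚ, 0 < r ∧ ∀ c > 0, ¬DispApprox r c) :=
  ⟨red, fun hn => ⟨3 / 2, by norm_num, fun c hc h => hn ⟨c, hc, red c (by push_cast at h; exact h)⟩⟩⟩

end Pool.Agent.Results.MP_10a207_lc.Hard
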